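import Pool.Agent.Helper19.SDim.All

/-!
# The singular dimension of the solution set of the `p`-Laplace equation, `1 < p < 2`

For every `1 < p < 2`, every `N ≥ 1` and every nonempty bounded open set `Ω ⊂ ℝ^N` the supremum of the
Hausdorff dimensions of the singular sets of the functions `u ∈ W_0^{1,p}(Ω)` with `-Δ_p u ∈ L^{p'}(Ω)`
is `max (0, N - p p')`.

Upper bound: at a point `a` where `∫_{B(a,r)} |F|^{p'} ≤ M r^s` with `s > N - p p'` the energy estimate
of Caccioppoli type and the iteration of levels of Kilpeläinen and Malý show that `u` is bounded on a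
part of positive measure of every small ball around `a`, so `a` is not singular; the remaining points
form a set of dimension at most `s`, by the covering theorem of Vitali.

Lower bound: `A ⊂ Ω` a Cantor set of dimension `s < N - p p'`, `F = N dist(x, A)^{-2κ}` with `2κ > p`
close to `p`, `u` the minimiser of the energy. Around every point `a` of `A` there are explicit radial
subsolutions of the same equation, since `dist(x, A) ≤ |x - a|`; by the comparison principle
`u ≥ c |x - a|^{-γ}` near `a`.

The parts of the proof were written by helpers 6, 10, 19, 35, 46, 49, 70, 71 and 91.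
-/

noncomputable section

open MeasureTheory Filter Set Metric
open scoped Topology ENNReal NNReal RealInnerProductSpace ContDiff Gradient

namespace Pool.Agent.Results.MP_ae319b_an.SingularDimension

open Helper19.SDim

/-- For all `1 < p < 2`, `N ≥ 1` and nonempty bounded open `Ω ⊂ ℝ^N`:
`s-dim X(Ω, p) = (N - p p')⁺`, where `p' = p / (p - 1)`. -/
theorem result : ∀ p : ℝ, 1 < p → p < 2 → ∀ N : ℕ, 1 ≤ N → ∀ Ω : Set (E N),
    IsOpen Ω → Bornology.IsBounded Ω → Ω.Nonempty →
    sdim Ω (X Ω p) = ENNReal.ofReal (N - p * (p / (p - 1))) :=
  main_thm upper_all Helper10.SDim.one_thm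
    (Helper35.SDim.lower_thm Helper46.SDim.cantor_thm
      (Helper19.SDim.exist_thm
        (Helper35.SDim.min_thm Helper49.SDim.vec_thm Helper49.SDim.poin_thm) Helper49.SDim.vec_thm)
      comp_all (Helper35.SDim.barr_thm Helper6.SDim.DIV.div_thm))

end Pool.Agent.Results.MP_ae319b_an.SingularDimension
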